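import Pool.Agent.H812R2.JS.Basic

set_option autoImplicit false
set_option linter.unusedSectionVars false

/-! # The space has the approximation property -/

open Filter Topology Finset
open scoped ENNReal

noncomputable section

namespace Pool.Agent.H812R2.JS

open Pool.Agent.BAPp Pool.Agent.H812R2.AP

variable (s : Sys)

/-- pointwise convergence of bounded operators is uniform on compact sets -/
lemma unif_compact {X : Type} [NormedAddCommGroup X] [NormedSpace ℝ X]
    (A : ℕ → X →L[ℝ] X) (B : X →L[ℝ] X) (C : ℝ) (hC : ∀ n, ‖A n‖ ≤ C)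
    (h : ∀ x, Tendsto (fun n => A n x) atTop (𝓝 (B x))) (K : Set X) (hK : IsCompact K)
    (ε : ℝ) (hε : 0 < ε) : ∃ n, ∀ x ∈ K, ‖A n x - B x‖ ≤ ε := by
  have hC0 : 0 ≤ C := (norm_nonneg _).trans (hC 0)
  set δ : ℝ := ε / (2 * (C + ‖B‖ + 1)) with hδ
  have hD : 0 < C + ‖B‖ + 1 := by positivity
  have hδ0 : 0 < δ := by positivity
  obtain ⟨t, htK, htf, ht⟩ := hK.finite_cover_balls hδ0
  have h1 : ∀ᶠ n in atTop, ∀ x ∈ t, ‖A n x - B x‖ ≤ ε / 2 := by
    rw [Filter.eventually_all_finite htf]
    intro x hx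
    have h2 := (Metric.tendsto_atTop.1 (h x)) (ε / 2) (by positivity)
    obtain ⟨N, hN⟩ := h2
    filter_upwards [eventually_ge_atTop N] with n hn
    rw [← dist_eq_norm]
    exact (hN n hn).le
  obtain ⟨n, hn⟩ := h1.exists
  refine ⟨n, fun x hx => ?_⟩
  obtain ⟨y, hy, hxy⟩ := Set.mem_iUnion₂.1 (ht hx)
  rw [Metric.mem_ball, dist_eq_norm] at hxy
  have e1 : A n x - B x = A n (x - y) + (A n y - B y) - B (x - y) := by
    rw [map_sub, map_sub]; abel
  rw [e1]
  have e2 : ‖A n (x - y)‖ ≤ C * δ :=
    ((A n).le_opNorm _).trans (mul_le_mul (hC n) hxy.le (norm_nonneg _) hC0)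
  have e3 : ‖B (x - y)‖ ≤ ‖B‖ * δ :=
    (B.le_opNorm _).trans (mul_le_mul_of_nonneg_left hxy.le (norm_nonneg _))
  have e4 : (C + ‖B‖) * δ ≤ ε / 2 := by
    rw [hδ, mul_div_assoc', div_le_div_iff₀ (by positivity) (by norm_num)]
    nlinarith
  calc ‖A n (x - y) + (A n y - B y) - B (x - y)‖
      ≤ ‖A n (x - y) + (A n y - B y)‖ + ‖B (x - y)‖ := norm_sub_le _ _
    _ ≤ (‖A n (x - y)‖ + ‖A n y - B y‖) + ‖B (x - y)‖ := by gcongr; exact norm_add_le _ _
    _ ≤ (C * δ + ε / 2) + ‖B‖ * δ := by gcongr; exact hn y hy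
    _ ≤ ε := by linarith

/-- the coordinates of the approximating operators -/
def AF (L N : ℕ) (z : LL) : ℕ → ℝ := fun i =>
  match cd.symm i with
  | (lam, none, x) => if lam < L then w lam x.1 * YU lam N z x else 0
  | (lam, some n, x) => if lam < L ∧ n < N then YU lam n z x - YU lam N z x else 0

lemma AF_none (L N : ℕ) (z : LL) (lam : ℕ) (x : ℕ × ℕ) : AF L N z (cd (lam, none, x)) =
    if lam < L then w lam x.1 * YU lam N z x else 0 := by
  unfold AF
  rw [Equiv.symm_apply_apply]

lemma AF_some (L N : ℕ) (z : LL) (lam n : ℕ) (x : ℕ × ℕ) : AF L N z (cd (lam, some n, x)) =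
    if lam < L ∧ n < N then YU lam n z x - YU lam N z x else 0 := by
  unfold AF
  rw [Equiv.symm_apply_apply]

/-- the finite set carrying the range -/
def suppSet (L N : ℕ) : Finset ℕ :=
  ((range L) ×ˢ ((insert none ((range N).image some)) ×ˢ ((range (N + 1)) ×ˢ (range (2 ^ (N + 2)))))).image cd

lemma AF_supp {L N : ℕ} {z : LL} (hz : z ∈ SS s) (i : ℕ) (hi : i ∉ suppSet L N) : AF L N z i = 0 := by
  obtain ⟨p, rfl⟩ := cd.surjective i
  obtain ⟨lam, o, x⟩ := p
  have hmem := ((mem_SS s).1 hz).2
  have hx : ∀ n ≤ N, x ∉ (range (N + 1)) ×ˢ (range (2 ^ (N + 2))) → YU lam n z x = 0 := by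
    intro n hn hx
    refine En_supp s (hmem lam n) x fun h => hx ?_
    rw [mem_product, mem_range, mem_range]
    exact ⟨by omega, lt_of_lt_of_le h.2 (Nat.pow_le_pow_right (by norm_num) (by omega))⟩
  cases o with
  | none =>
    rw [AF_none]
    split_ifs with h1
    · rw [hx N le_rfl, mul_zero]
      intro h2
      exact hi (Finset.mem_image_of_mem _ (mem_product.2 ⟨mem_range.2 h1,
        mem_product.2 ⟨mem_insert_self _ _, h2⟩⟩))
    · rfl
  | some n =>
    rw [AF_some]
    split_ifs with h1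
    · have h3 : x ∉ (range (N + 1)) ×ˢ (range (2 ^ (N + 2))) := fun h2 =>
        hi (Finset.mem_image_of_mem _ (mem_product.2 ⟨mem_range.2 h1.1,
          mem_product.2 ⟨mem_insert_of_mem (mem_image_of_mem _ (mem_range.2 h1.2)), h2⟩⟩))
      rw [hx N le_rfl h3, hx n h1.2.le h3, sub_zero]
    · rfl

lemma AF_finite {L N : ℕ} {z : LL} (hz : z ∈ SS s) : (Function.support (AF L N z)).Finite := by
  refine (suppSet L N).finite_toSet.subset fun i hi => ?_
  by_contra hcon
  exact hi (AF_supp s hz i hcon)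

lemma AF_mem {L N : ℕ} {z : LL} (hz : z ∈ SS s) : ofFin (AF L N z) (AF_finite s hz) ∈ SS s := by
  rw [mem_SS]
  refine ⟨tendsto_ofFin _ _, fun lam n => ?_⟩
  have hmem := ((mem_SS s).1 hz).2
  by_cases hL : lam < L
  · by_cases hn : n < N
    · have h : YU lam n (ofFin (AF L N z) (AF_finite s hz)) = YU lam n z := by
        funext x
        rw [YU_apply, ofFin_apply, ofFin_apply, AF_none, AF_some, if_pos hL, if_pos ⟨hL, hn⟩,
          mul_div_cancel_left₀ _ (w_pos _ _).ne']
        ring
      rw [h]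
      exact hmem lam n
    · have h : YU lam n (ofFin (AF L N z) (AF_finite s hz)) = YU lam N z := by
        funext x
        rw [YU_apply, ofFin_apply, ofFin_apply, AF_none, AF_some, if_pos hL,
          if_neg (fun h => hn h.2), mul_div_cancel_left₀ _ (w_pos _ _).ne', add_zero]
      rw [h]
      exact En_mono s (not_lt.1 hn) (hmem lam N)
  · have h : YU lam n (ofFin (AF L N z) (AF_finite s hz)) = 0 := by
      funext x
      rw [YU_apply, ofFin_apply, ofFin_apply, AF_none, AF_some, if_neg hL,
        if_neg (fun h => hL h.1), zero_div, add_zero]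
      rfl
    rw [h]
    exact Submodule.zero_mem _

lemma AF_le (L N : ℕ) (z : LL) (i : ℕ) : |AF L N z i| ≤ (L + 2) * ‖z‖ := by
  obtain ⟨p, rfl⟩ := cd.surjective i
  obtain ⟨lam, o, x⟩ := p
  have h0 : 0 ≤ ‖z‖ := norm_nonneg _
  have hL : (0 : ℝ) ≤ L := Nat.cast_nonneg _
  have hLz : 0 ≤ ((L : ℝ) + 2) * ‖z‖ := by positivity
  have hz := fun j => abs_ev_le j z
  cases o with
  | none =>
    rw [AF_none]
    split_ifs with h1
    · have e : w lam x.1 * YU lam N z x = z (cd (lam, none, x)) + w lam x.1 * z (cd (lam, some N, x)) := by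
        rw [YU_apply, mul_add, mul_div_cancel₀ _ (w_pos _ _).ne']
      rw [e]
      have h2 : w lam x.1 ≤ L := (w_le lam x.1).trans (by exact_mod_cast h1)
      calc |z (cd (lam, none, x)) + w lam x.1 * z (cd (lam, some N, x))|
          ≤ |z (cd (lam, none, x))| + |w lam x.1 * z (cd (lam, some N, x))| := abs_add_le _ _
        _ = |z (cd (lam, none, x))| + w lam x.1 * |z (cd (lam, some N, x))| := by
            rw [abs_mul, abs_of_pos (w_pos _ _)]
        _ ≤ ‖z‖ + L * ‖z‖ := add_le_add (hz _) (mul_le_mul h2 (hz _) (abs_nonneg _) hL)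
        _ ≤ _ := by nlinarith
    · rw [abs_zero]; exact hLz
  | some n =>
    rw [AF_some]
    split_ifs with h1
    · have e : YU lam n z x - YU lam N z x = z (cd (lam, some n, x)) - z (cd (lam, some N, x)) := by
        rw [YU_apply, YU_apply]; ring
      rw [e]
      calc |z (cd (lam, some n, x)) - z (cd (lam, some N, x))|
          ≤ |z (cd (lam, some n, x))| + |z (cd (lam, some N, x))| := abs_sub _ _
        _ ≤ ‖z‖ + ‖z‖ := add_le_add (hz _) (hz _)
        _ ≤ _ := by nlinarith
    · rw [abs_zero]; exact hLz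

/-- the approximating operators as linear maps -/
def AL (L N : ℕ) : SS s →ₗ[ℝ] SS s where
  toFun z := ⟨ofFin (AF L N z) (AF_finite s z.2), AF_mem s z.2⟩
  map_add' z z' := by
    apply Subtype.ext
    apply lp.ext
    funext i
    change AF L N ((z : LL) + z') i = AF L N z i + AF L N z' i
    obtain ⟨p, rfl⟩ := cd.surjective i
    obtain ⟨lam, o, x⟩ := p
    cases o with
    | none =>
      rw [AF_none, AF_none, AF_none, map_add, Pi.add_apply]
      split_ifs <;> ring
    | some n =>
      rw [AF_some, AF_some, AF_some, map_add, map_add, Pi.add_apply, Pi.add_apply]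
      split_ifs <;> ring
  map_smul' c z := by
    apply Subtype.ext
    apply lp.ext
    funext i
    change AF L N (c • (z : LL)) i = c * AF L N z i
    obtain ⟨p, rfl⟩ := cd.surjective i
    obtain ⟨lam, o, x⟩ := p
    cases o with
    | none =>
      rw [AF_none, AF_none, map_smul, Pi.smul_apply, smul_eq_mul]
      split_ifs <;> ring
    | some n =>
      rw [AF_some, AF_some, map_smul, map_smul, Pi.smul_apply, Pi.smul_apply, smul_eq_mul, smul_eq_mul]
      split_ifs <;> ring

/-- the approximating operators -/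
def AC (L N : ℕ) : SS s →L[ℝ] SS s := (AL s L N).mkContinuous (L + 2) fun z =>
  norm_le_of (by positivity) fun i => AF_le L N z i

lemma AC_apply (L N : ℕ) (z : SS s) (i : ℕ) : (AC s L N z : LL) i = AF L N z i := rfl

lemma norm_AC_le (L N : ℕ) : ‖AC s L N‖ ≤ L + 2 :=
  LinearMap.mkContinuous_norm_le _ (by positivity) _

lemma finite_AC (L N : ℕ) : FiniteDimensional ℝ (LinearMap.range (AC s L N : SS s →ₗ[ℝ] SS s)) := by
  let ρ : SS s →ₗ[ℝ] (suppSet L N → ℝ) :=
    { toFun := fun z i => (z : LL) i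
      map_add' := fun _ _ => rfl
      map_smul' := fun _ _ => rfl }
  refine FiniteDimensional.of_injective
    (ρ.comp (LinearMap.range (AC s L N : SS s →ₗ[ℝ] SS s)).subtype) ?_
  rw [← LinearMap.ker_eq_bot, LinearMap.ker_eq_bot']
  rintro ⟨_, z, rfl⟩ hz
  apply Subtype.ext
  apply Subtype.ext
  apply lp.ext
  funext i
  change AF L N z i = 0
  by_cases hi : i ∈ suppSet L N
  · exact congrFun hz ⟨i, hi⟩
  · exact AF_supp s z.2 i hi

/-- the block projections -/
def PL (L : ℕ) : SS s →ₗ[ℝ] SS s where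
  toFun z := ⟨⟨fun i => if (cd.symm i).1 < L then (z : LL) i else 0, by
      refine memℓp_infty ⟨‖z‖, ?_⟩
      rintro _ ⟨i, rfl⟩
      dsimp only
      split_ifs
      · exact abs_ev_le i z
      · simp⟩, by
    rw [mem_SS]
    constructor
    · have h := ((mem_SS s).1 z.2).1
      have h' := h.abs
      rw [abs_zero] at h'
      refine squeeze_zero_norm (fun n => ?_) h'
      change |(if (cd.symm n).1 < L then (z : LL) n else 0)| ≤ |(z : LL) n|
      split_ifs
      · exact le_rfl
      · simp
    · intro lam n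
      have h := ((mem_SS s).1 z.2).2 lam n
      by_cases hL : lam < L
      · convert h using 1
        funext x
        rw [YU_apply, YU_apply]
        change (if (cd.symm (cd (lam, none, x))).1 < L then (z : LL) _ else 0) / _ +
          (if (cd.symm (cd (lam, some n, x))).1 < L then (z : LL) _ else 0) = _
        rw [Equiv.symm_apply_apply, Equiv.symm_apply_apply, if_pos hL, if_pos hL]
      · convert Submodule.zero_mem _ using 1
        funext x
        rw [YU_apply]
        change (if (cd.symm (cd (lam, none, x))).1 < L then (z : LL) _ else 0) / _ +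
          (if (cd.symm (cd (lam, some n, x))).1 < L then (z : LL) _ else 0) = _
        rw [Equiv.symm_apply_apply, Equiv.symm_apply_apply, if_neg hL, if_neg hL, zero_div, add_zero]
        rfl⟩
  map_add' z z' := by
    apply Subtype.ext
    apply lp.ext
    funext i
    change (if (cd.symm i).1 < L then (z : LL) i + (z' : LL) i else 0) =
      (if (cd.symm i).1 < L then (z : LL) i else 0) + (if (cd.symm i).1 < L then (z' : LL) i else 0)
    split_ifs <;> ring
  map_smul' c z := by
    apply Subtype.ext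
    apply lp.ext
    funext i
    change (if (cd.symm i).1 < L then c * (z : LL) i else 0) =
      c * (if (cd.symm i).1 < L then (z : LL) i else 0)
    split_ifs <;> ring

/-- the block projections -/
def PC (L : ℕ) : SS s →L[ℝ] SS s := (PL s L).mkContinuous 1 fun z => by
  rw [one_mul]
  refine norm_le_of (norm_nonneg _) fun i => ?_
  change |(if (cd.symm i).1 < L then (z : LL) i else 0)| ≤ _
  split_ifs
  · exact abs_ev_le i z
  · simp

lemma PC_apply (L : ℕ) (z : SS s) (i : ℕ) :
    (PC s L z : LL) i = if (cd.symm i).1 < L then (z : LL) i else 0 := rfl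

lemma norm_PC_le (L : ℕ) : ‖PC s L‖ ≤ 1 := LinearMap.mkContinuous_norm_le _ zero_le_one _

/-- smallness far away -/
lemma small_far (z : SS s) (ε : ℝ) (hε : 0 < ε) : ∃ M : ℕ, ∀ i, M ≤ i → |(z : LL) i| ≤ ε := by
  obtain ⟨M, hM⟩ := Metric.tendsto_atTop.1 ((mem_SS s).1 z.2).1 ε hε
  refine ⟨M, fun i hi => ?_⟩
  have := hM i hi
  rw [Real.dist_eq, sub_zero] at this
  exact this.le

lemma tendsto_PC (z : SS s) : Tendsto (fun L => PC s L z) atTop (𝓝 z) := by
  rw [Metric.tendsto_atTop]
  intro ε hε
  obtain ⟨M, hM⟩ := small_far s z (ε / 2) (by positivity)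
  -- blocks below the bound
  refine ⟨(range M).sup (fun i => (cd.symm i).1 + 1), fun L hL => ?_⟩
  rw [dist_eq_norm]
  refine lt_of_le_of_lt (norm_le_of (C := ε / 2) (by positivity) fun i => ?_) (by linarith)
  change |(PC s L z : LL) i - (z : LL) i| ≤ ε / 2
  rw [PC_apply]
  split_ifs with h1
  · rw [sub_self, abs_zero]; positivity
  · rw [zero_sub, abs_neg]
    refine hM i ?_
    by_contra hcon
    have h2 : (cd.symm i).1 + 1 ≤ (range M).sup (fun i => (cd.symm i).1 + 1) :=
      Finset.le_sup (f := fun i => (cd.symm i).1 + 1) (mem_range.2 (not_le.1 hcon))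
    omega

lemma tendsto_AC (L : ℕ) (z : SS s) : Tendsto (fun N => AC s L N z) atTop (𝓝 (PC s L z)) := by
  rw [Metric.tendsto_atTop]
  intro ε hε
  obtain ⟨M, hM⟩ := small_far s z (ε / (2 * (L + 1))) (by positivity)
  refine ⟨(range M).sup (fun i => ((cd.symm i).2.1.getD 0) + 1), fun N hN => ?_⟩
  have hfar : ∀ lam n x, N ≤ n → |(z : LL) (cd (lam, some n, x))| ≤ ε / (2 * (L + 1)) := by
    intro lam n x hn
    refine hM _ ?_
    by_contra hcon
    have h2 : ((cd.symm (cd (lam, some n, x))).2.1.getD 0) + 1 ≤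
        (range M).sup (fun i => ((cd.symm i).2.1.getD 0) + 1) :=
      Finset.le_sup (f := fun i => ((cd.symm i).2.1.getD 0) + 1) (mem_range.2 (not_le.1 hcon))
    rw [Equiv.symm_apply_apply, Option.getD_some] at h2
    omega
  have hL0 : (0 : ℝ) ≤ L := Nat.cast_nonneg _
  have hfar' : ∀ lam n x, N ≤ n → |(z : LL) (cd (lam, some n, x))| ≤ ε / 2 := by
    intro lam n x hn
    refine (hfar lam n x hn).trans ?_
    rw [div_le_div_iff₀ (by positivity) (by norm_num)]
    nlinarith
  rw [dist_eq_norm]
  refine lt_of_le_of_lt (norm_le_of (C := ε / 2) (by positivity) fun i => ?_) (by linarith)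
  change |(AC s L N z : LL) i - (PC s L z : LL) i| ≤ ε / 2
  rw [AC_apply, PC_apply]
  obtain ⟨p, rfl⟩ := cd.surjective i
  obtain ⟨lam, o, x⟩ := p
  rw [Equiv.symm_apply_apply]
  cases o with
  | none =>
    rw [AF_none]
    dsimp only
    split_ifs with h1
    · have e : w lam x.1 * YU lam N z x - (z : LL) (cd (lam, none, x)) =
          w lam x.1 * (z : LL) (cd (lam, some N, x)) := by
        rw [YU_apply, mul_add, mul_div_cancel₀ _ (w_pos _ _).ne']; ring
      rw [e, abs_mul, abs_of_pos (w_pos _ _)]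
      have h2 : w lam x.1 ≤ L + 1 := (w_le lam x.1).trans (by
        have : (lam : ℝ) < L := by exact_mod_cast h1
        linarith)
      calc w lam x.1 * |(z : LL) (cd (lam, some N, x))| ≤ (L + 1) * (ε / (2 * (L + 1))) :=
            mul_le_mul h2 (hfar lam N x le_rfl) (abs_nonneg _) (by positivity)
        _ = ε / 2 := by field_simp
    · rw [sub_zero, abs_zero]; positivity
  | some n =>
    rw [AF_some]
    dsimp only
    by_cases h1 : lam < L
    · rw [if_pos h1]
      by_cases h2 : n < N
      · rw [if_pos ⟨h1, h2⟩]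
        have e : YU lam n z x - YU lam N z x - (z : LL) (cd (lam, some n, x)) =
            - (z : LL) (cd (lam, some N, x)) := by
          rw [YU_apply, YU_apply]; ring
        rw [e, abs_neg]
        exact hfar' lam N x le_rfl
      · rw [if_neg (fun h => h2 h.2), zero_sub, abs_neg]
        exact hfar' lam n x (not_lt.1 h2)
    · rw [if_neg h1, if_neg (fun h => h1 h.1), sub_zero, abs_zero]; positivity

/-- the space has the approximation property -/
theorem hasAP (K : Set (SS s)) (hK : IsCompact K) (ε : ℝ) (hε : 0 < ε) :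
    ∃ T : SS s →L[ℝ] SS s, FiniteDimensional ℝ (LinearMap.range (T : SS s →ₗ[ℝ] SS s)) ∧
      ∀ x ∈ K, ‖T x - x‖ ≤ ε := by
  obtain ⟨L, hL⟩ := unif_compact (fun L => PC s L) (ContinuousLinearMap.id ℝ _) 1 (norm_PC_le s)
    (fun x => tendsto_PC s x) K hK (ε / 2) (by positivity)
  obtain ⟨N, hN⟩ := unif_compact (fun N => AC s L N) (PC s L) (L + 2) (norm_AC_le s L)
    (tendsto_AC s L) K hK (ε / 2) (by positivity)
  refine ⟨AC s L N, finite_AC s L N, fun x hx => ?_⟩
  have h1 := hL x hx
  have h2 := hN x hx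
  rw [ContinuousLinearMap.id_apply] at h1
  calc ‖AC s L N x - x‖ = ‖(AC s L N x - PC s L x) + (PC s L x - x)‖ := by congr 1; abel
    _ ≤ ‖AC s L N x - PC s L x‖ + ‖PC s L x - x‖ := norm_add_le _ _
    _ ≤ ε := by linarith

end Pool.Agent.H812R2.JS
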