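import Pool.Agent.H812R2.AP.NoAP

set_option autoImplicit false
set_option linter.unusedSectionVars false

/-! # A subspace of `c₀` with the AP and without the BAP: definitions -/

open Filter Topology Finset
open scoped ENNReal

noncomputable section

namespace Pool.Agent.H812R2.JS

open Pool.Agent.BAPp Pool.Agent.H812R2.AP

abbrev Fn := ℕ × ℕ → ℝ
abbrev Ix := ℕ × Option ℕ × (ℕ × ℕ)

/-- coding of the indices -/
def cd : Ix ≃ ℕ := Denumerable.eqv Ix

/-- the ambient space of bounded sequences -/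
abbrev LL := lp (fun _ : ℕ => ℝ) ∞

/-- the weights -/
def w (lam k : ℕ) : ℝ := if k ≤ lam then (lam : ℝ) + 1 else 1

lemma one_le_w (lam k : ℕ) : 1 ≤ w lam k := by
  unfold w
  split_ifs
  · have : (0 : ℝ) ≤ lam := Nat.cast_nonneg _
    linarith
  · exact le_rfl

lemma w_pos (lam k : ℕ) : 0 < w lam k := lt_of_lt_of_le one_pos (one_le_w lam k)

lemma w_le (lam k : ℕ) : w lam k ≤ lam + 1 := by
  unfold w
  have : (0 : ℝ) ≤ lam := Nat.cast_nonneg _
  split_ifs
  · exact le_rfl
  · linarith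

variable (s : Sys)

/-- the finite dimensional pieces -/
def En (n : ℕ) : Submodule ℝ Fn :=
  Submodule.span ℝ {f | ∃ l i, l ≤ n ∧ i < 2 ^ l ∧ f = ee s.sg s.tt l i}

lemma finite_gen (n : ℕ) : {f : Fn | ∃ l i, l ≤ n ∧ i < 2 ^ l ∧ f = ee s.sg s.tt l i}.Finite := by
  have h : {f : Fn | ∃ l i, l ≤ n ∧ i < 2 ^ l ∧ f = ee s.sg s.tt l i} ⊆
      (fun p : ℕ × ℕ => ee s.sg s.tt p.1 p.2) '' ((Set.Iic n) ×ˢ (Set.Iio (2 ^ n))) := by
    rintro f ⟨l, i, hl, hi, rfl⟩
    exact ⟨(l, i), ⟨hl, lt_of_lt_of_le hi (Nat.pow_le_pow_right (by norm_num) hl)⟩, rfl⟩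
  exact (((Set.finite_Iic n).prod (Set.finite_Iio _)).image _).subset h

instance (n : ℕ) : FiniteDimensional ℝ (En s n) :=
  FiniteDimensional.span_of_finite ℝ (finite_gen s n)

lemma En_mono {m n : ℕ} (h : m ≤ n) : En s m ≤ En s n := by
  refine Submodule.span_mono ?_
  rintro f ⟨l, i, hl, hi, rfl⟩
  exact ⟨l, i, hl.trans h, hi, rfl⟩

lemma ee_mem {n l i : ℕ} (hl : l ≤ n) (hi : i < 2 ^ l) : ee s.sg s.tt l i ∈ En s n :=
  Submodule.subset_span ⟨l, i, hl, hi, rfl⟩

lemma En_supp {n : ℕ} {f : Fn} (hf : f ∈ En s n) (x : ℕ × ℕ) (hx : ¬ (x.1 ≤ n ∧ x.2 < 2 ^ (x.1 + 2))) :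
    f x = 0 := by
  refine Submodule.span_induction (p := fun f _ => f x = 0) ?_ rfl ?_ ?_ hf
  · rintro f ⟨l, i, hl, hi, rfl⟩
    unfold ee
    split_ifs with h1 h2 h3
    · exact absurd ⟨by omega, h1⟩ hx
    · exact absurd ⟨by omega, h1⟩ hx
    · rfl
    · rfl
  · intro f g _ _ hf hg
    rw [Pi.add_apply, hf, hg, add_zero]
  · intro c f _ hf
    rw [Pi.smul_apply, hf, smul_zero]

/-- evaluation of the ambient space at an index -/
def ev (i : ℕ) : LL →ₗ[ℝ] ℝ where
  toFun z := z i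
  map_add' _ _ := rfl
  map_smul' _ _ := rfl

lemma ev_apply (i : ℕ) (z : LL) : ev i z = z i := rfl

lemma abs_ev_le (i : ℕ) (z : LL) : |z i| ≤ ‖z‖ := by
  have := lp.norm_apply_le_norm (E := fun _ : ℕ => ℝ) (p := ∞) ENNReal.top_ne_zero z i
  rwa [Real.norm_eq_abs] at this

lemma norm_le_of {z : LL} {C : ℝ} (hC : 0 ≤ C) (h : ∀ i, |z i| ≤ C) : ‖z‖ ≤ C :=
  lp.norm_le_of_forall_le hC fun i => by rw [Real.norm_eq_abs]; exact h i

/-- the limit part in the block `lam` -/
def Y (lam : ℕ) : LL →ₗ[ℝ] Fn where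
  toFun z := fun x => z (cd (lam, none, x)) / w lam x.1
  map_add' z z' := by
    funext x
    simp [add_div]
  map_smul' c z := by
    funext x
    simp [mul_div_assoc]

lemma Y_apply (lam : ℕ) (z : LL) (x : ℕ × ℕ) : Y lam z x = z (cd (lam, none, x)) / w lam x.1 := rfl

/-- the `n`-th element of the block `lam` -/
def YU (lam n : ℕ) : LL →ₗ[ℝ] Fn where
  toFun z := fun x => z (cd (lam, none, x)) / w lam x.1 + z (cd (lam, some n, x))
  map_add' z z' := by
    funext x
    simp only [lp.coeFn_add, Pi.add_apply, add_div]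
    ring
  map_smul' c z := by
    funext x
    simp only [lp.coeFn_smul, Pi.smul_apply, smul_eq_mul, RingHom.id_apply]
    ring

lemma YU_apply (lam n : ℕ) (z : LL) (x : ℕ × ℕ) :
    YU lam n z x = z (cd (lam, none, x)) / w lam x.1 + z (cd (lam, some n, x)) := rfl

/-- sequences tending to zero -/
def c0 : Submodule ℝ LL where
  carrier := {z | Tendsto (fun n : ℕ => z n) atTop (𝓝 0)}
  add_mem' {a b} ha hb := by
    have := Tendsto.add ha hb
    rw [add_zero] at this
    exact this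
  zero_mem' := tendsto_const_nhds
  smul_mem' c z hz := by
    have := Tendsto.const_mul c hz
    rw [mul_zero] at this
    exact this

lemma mem_c0 {z : LL} : z ∈ c0 ↔ Tendsto (fun n : ℕ => z n) atTop (𝓝 0) := Iff.rfl

lemma isClosed_c0 : IsClosed (c0 : Set LL) := by
  rw [← closure_eq_iff_isClosed]
  refine Set.Subset.antisymm (fun z hz => ?_) subset_closure
  change Tendsto (fun n : ℕ => z n) atTop (𝓝 0)
  rw [Metric.tendsto_atTop]
  intro ε hε
  rw [Metric.mem_closure_iff] at hz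
  obtain ⟨y, hy, hxy⟩ := hz (ε / 2) (by positivity)
  obtain ⟨N, hN⟩ := Metric.tendsto_atTop.1 (mem_c0.1 hy) (ε / 2) (by positivity)
  refine ⟨N, fun n hn => ?_⟩
  have h1 := hN n hn
  rw [Real.dist_eq, sub_zero] at h1 ⊢
  have h2 := abs_ev_le n (z - y)
  rw [lp.coeFn_sub, Pi.sub_apply] at h2
  rw [dist_eq_norm] at hxy
  have h3 : |z n| ≤ |z n - y n| + |y n| := by
    have := abs_add_le (z n - y n) (y n)
    rwa [sub_add_cancel] at this
  linarith

/-- the space -/
def SS : Submodule ℝ LL := c0 ⊓ ⨅ p : ℕ × ℕ, (En s p.2).comap (YU p.1 p.2)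

lemma mem_SS {z : LL} : z ∈ SS s ↔ Tendsto (fun n : ℕ => z n) atTop (𝓝 0) ∧
    ∀ lam n, YU lam n z ∈ En s n := by
  unfold SS
  rw [Submodule.mem_inf, Submodule.mem_iInf]
  refine and_congr Iff.rfl ⟨fun h lam n => h (lam, n), fun h p => h p.1 p.2⟩

lemma continuous_ev (i : ℕ) : Continuous fun z : LL => z i := by
  have h : Continuous (LinearMap.mkContinuous (ev i) 1 (fun z => by
    rw [one_mul, Real.norm_eq_abs]; exact abs_ev_le i z)) := ContinuousLinearMap.continuous _
  exact h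

lemma isClosed_SS : IsClosed (SS s : Set LL) := by
  have h : (SS s : Set LL) = (c0 : Set LL) ∩ ⋂ p : ℕ × ℕ, (YU p.1 p.2) ⁻¹' (En s p.2 : Set Fn) := by
    ext z
    simp only [SS, Submodule.coe_inf, Submodule.coe_iInf, Submodule.comap_coe]
  rw [h]
  refine isClosed_c0.inter (isClosed_iInter fun p => ?_)
  refine IsClosed.preimage ?_ (Submodule.closed_of_finiteDimensional _)
  refine continuous_pi fun x => ?_
  exact ((continuous_ev _).div_const _).add (continuous_ev _)

/-- vectors with finite support -/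
def ofFin (F : ℕ → ℝ) (h : (Function.support F).Finite) : LL :=
  ⟨F, by
    refine memℓp_infty ?_
    have h2 : (Set.range fun i => ‖F i‖).Finite := by
      have h3 : (Set.range fun i => ‖F i‖) ⊆ insert 0 ((fun i => ‖F i‖) '' Function.support F) := by
        rintro _ ⟨i, rfl⟩
        by_cases hi : F i = 0
        · left; simp [hi]
        · right; exact ⟨i, hi, rfl⟩
      exact ((h.image _).insert 0).subset h3
    exact h2.bddAbove⟩

lemma ofFin_apply (F : ℕ → ℝ) (h : (Function.support F).Finite) (i : ℕ) : ofFin F h i = F i := rfl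

lemma tendsto_ofFin (F : ℕ → ℝ) (h : (Function.support F).Finite) :
    Tendsto (fun n : ℕ => ofFin F h n) atTop (𝓝 0) := by
  obtain ⟨N, hN⟩ := h.bddAbove
  refine tendsto_const_nhds.congr' ?_
  filter_upwards [eventually_gt_atTop N] with n hn
  rw [ofFin_apply]
  by_contra hcon
  exact absurd (hN (Ne.symm hcon)) (not_le.2 hn)

end Pool.Agent.H812R2.JS
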