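import Pool.Agent.H812R2.JS.Basic

set_option autoImplicit false
set_option linter.unusedSectionVars false

/-! # The trace-like functionals -/

open Filter Topology Finset
open scoped ENNReal

noncomputable section

namespace Pool.Agent.H812R2.JS

open Pool.Agent.BAPp Pool.Agent.H812R2.AP

variable (s : Sys)

/-- biorthogonal functionals on functions -/
def alf (l j : ℕ) (f : Fn) : ℝ := (1 / 2 ^ (l + 2)) * ∑ g ∈ range (2 ^ (l + 2)), s.sg l j g * f (l, g)

/-- second form -/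
def alf' (l j : ℕ) (f : Fn) : ℝ := (1 / 2 ^ (l + 2)) * ∑ g ∈ range (2 ^ (l + 2)), s.tt l j g * f (l, g)

lemma alf_add (l j : ℕ) (f g : Fn) : alf s l j (f + g) = alf s l j f + alf s l j g := by
  unfold alf
  rw [← mul_add, ← Finset.sum_add_distrib]
  congr 1
  exact Finset.sum_congr rfl fun x _ => by rw [Pi.add_apply, mul_add]

lemma alf'_add (l j : ℕ) (f g : Fn) : alf' s l j (f + g) = alf' s l j f + alf' s l j g := by
  unfold alf'
  rw [← mul_add, ← Finset.sum_add_distrib]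
  congr 1
  exact Finset.sum_congr rfl fun x _ => by rw [Pi.add_apply, mul_add]

lemma alf_smul (l j : ℕ) (c : ℝ) (f : Fn) : alf s l j (c • f) = c * alf s l j f := by
  unfold alf
  rw [mul_left_comm, Finset.mul_sum (a := c)]
  congr 1
  exact Finset.sum_congr rfl fun x _ => by rw [Pi.smul_apply, smul_eq_mul, mul_left_comm]

lemma alf'_smul (l j : ℕ) (c : ℝ) (f : Fn) : alf' s l j (c • f) = c * alf' s l j f := by
  unfold alf'
  rw [mul_left_comm, Finset.mul_sum (a := c)]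
  congr 1
  exact Finset.sum_congr rfl fun x _ => by rw [Pi.smul_apply, smul_eq_mul, mul_left_comm]

lemma alf_E (l j m i : ℕ) (hj : j < 2 ^ l) (hi : i < 2 ^ m) :
    alf s l j (ee s.sg s.tt m i) = if m = l ∧ i = j then 1 else 0 := by
  have h := s.al_E (𝕜 := ℝ) l j m i hj hi
  rw [← h]
  simp [alf, Sys.al, Sys.E_apply]

lemma alf'_E (l j m i : ℕ) (hj : j < 2 ^ (l + 1)) (hi : i < 2 ^ m) :
    alf' s l j (ee s.sg s.tt m i) = if m = l + 1 ∧ i = j then 1 else 0 := by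
  have h := s.al'_E (𝕜 := ℝ) l j m i hj hi
  rw [← h]
  simp [alf', Sys.al', Sys.E_apply]

/-- the two forms agree -/
def Good (f : Fn) : Prop := ∀ l j, j < 2 ^ (l + 1) → alf s (l + 1) j f = alf' s l j f

lemma good_En {n : ℕ} {f : Fn} (hf : f ∈ En s n) : Good s f := by
  intro l j hj
  refine Submodule.span_induction (p := fun f _ => alf s (l + 1) j f = alf' s l j f) ?_ ?_ ?_ ?_ hf
  · rintro f ⟨m, i, _, hi, rfl⟩
    rw [alf_E s _ _ _ _ hj hi, alf'_E s _ _ _ _ hj hi]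
  · simp [alf, alf']
  · intro f g _ _ hf hg
    rw [alf_add, alf'_add, hf, hg]
  · intro c f _ hf
    rw [alf_smul, alf'_smul, hf]

lemma good_sub {f g : Fn} (hf : Good s f) (hg : Good s g) : Good s (f - g) := by
  intro l j hj
  have e : f - g = f + (-1 : ℝ) • g := by
    rw [neg_one_smul]; exact sub_eq_add_neg _ _
  rw [e, alf_add, alf'_add, alf_smul, alf'_smul, hf l j hj, hg l j hj]

lemma good_limit {f : Fn} (F : ℕ → Fn) (hF : ∀ n, Good s (F n))
    (h : ∀ x, Tendsto (fun n => F n x) atTop (𝓝 (f x))) : Good s f := by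
  intro l j hj
  have h1 : ∀ j, Tendsto (fun n => alf s (l + 1) j (F n)) atTop (𝓝 (alf s (l + 1) j f)) := by
    intro j
    unfold alf
    exact (tendsto_finsetSum _ fun g _ => (h _).const_mul _).const_mul _
  have h2 : ∀ j, Tendsto (fun n => alf' s l j (F n)) atTop (𝓝 (alf' s l j f)) := by
    intro j
    unfold alf'
    exact (tendsto_finsetSum _ fun g _ => (h _).const_mul _).const_mul _
  have h3 : (fun n => alf s (l + 1) j (F n)) = fun n => alf' s l j (F n) :=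
    funext fun n => hF n l j hj
  have h4 := h1 j
  rw [h3] at h4
  exact tendsto_nhds_unique h4 (h2 j)

lemma good_Y {z : LL} (hz : z ∈ SS s) (lam : ℕ) : Good s (Y lam z) := by
  refine good_limit s (fun n => YU lam n z) (fun n => good_En s (((mem_SS s).1 hz).2 lam n)) ?_
  intro x
  have h1 : Tendsto (fun n : ℕ => z (cd (lam, some n, x))) atTop (𝓝 0) := by
    have hinj : Function.Injective fun n : ℕ => cd (lam, some n, x) := by
      intro a b hab
      have := cd.injective hab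
      simpa using this
    exact (((mem_SS s).1 hz).1).comp hinj.nat_tendsto_atTop
  have h2 := h1.const_add (z (cd (lam, none, x)) / w lam x.1)
  rw [add_zero] at h2
  exact h2

lemma abs_alf_le (l j : ℕ) (f : Fn) {M : ℝ} (hM : ∀ g < 2 ^ (l + 2), |f (l, g)| ≤ M) :
    |alf s l j f| ≤ M := by
  unfold alf
  rw [abs_mul, abs_of_nonneg (by positivity)]
  have h2 : |∑ g ∈ range (2 ^ (l + 2)), s.sg l j g * f (l, g)| ≤ 2 ^ (l + 2) * M := by
    refine (Finset.abs_sum_le_sum_abs _ _).trans ?_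
    have h3 : ∑ g ∈ range (2 ^ (l + 2)), |s.sg l j g * f (l, g)| ≤
        ∑ g ∈ range (2 ^ (l + 2)), M := by
      refine Finset.sum_le_sum fun g hg => ?_
      rw [abs_mul]
      have h5 := hM g (mem_range.1 hg)
      calc |s.sg l j g| * |f (l, g)| ≤ 1 * M :=
            mul_le_mul (s.sg_le l j g) h5 (abs_nonneg _) zero_le_one
        _ = M := one_mul M
    refine h3.trans (le_of_eq ?_)
    rw [Finset.sum_const, card_range, nsmul_eq_mul]
    push_cast
    ring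
  calc (1 / 2 ^ (l + 2) : ℝ) * |∑ g ∈ range (2 ^ (l + 2)), s.sg l j g * f (l, g)|
      ≤ (1 / 2 ^ (l + 2)) * (2 ^ (l + 2) * M) := by gcongr
    _ = M := by field_simp

/-- the generators as elements of `En` -/
def eE (m k j : ℕ) : En s m := if h : k ≤ m ∧ j < 2 ^ k then ⟨ee s.sg s.tt k j, ee_mem s h.1 h.2⟩ else 0

lemma eE_coe {m k j : ℕ} (hk : k ≤ m) (hj : j < 2 ^ k) : (eE s m k j : Fn) = ee s.sg s.tt k j := by
  unfold eE
  rw [dif_pos ⟨hk, hj⟩]

/-- the vectors of the compact set -/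
def ph (m k g : ℕ) : En s m :=
  (1 / 2 ^ (k + 1) : ℝ) • (∑ j ∈ range (2 ^ (k + 1)), s.tt k j g • eE s m (k + 1) j) -
    (1 / 2 ^ k : ℝ) • (∑ j ∈ range (2 ^ k), s.sg k j g • eE s m k j)

lemma ph_apply {m k g : ℕ} (hk : k + 1 ≤ m) (x : ℕ × ℕ) : (ph s m k g : Fn) x =
    (1 / 2 ^ (k + 1) : ℝ) * (∑ j ∈ range (2 ^ (k + 1)), s.tt k j g * ee s.sg s.tt (k + 1) j x) -
      (1 / 2 ^ k : ℝ) * (∑ j ∈ range (2 ^ k), s.sg k j g * ee s.sg s.tt k j x) := by
  have h1 : ∀ (c : ℕ → ℝ) (l : ℕ), l ≤ m → ((∑ j ∈ range (2 ^ l), c j • eE s m l j : En s m) : Fn) x =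
      ∑ j ∈ range (2 ^ l), c j * ee s.sg s.tt l j x := by
    intro c l hl
    rw [Submodule.coe_sum, Finset.sum_apply]
    refine Finset.sum_congr rfl fun j hj => ?_
    rw [Submodule.coe_smul, Pi.smul_apply, smul_eq_mul, eE_coe s hl (mem_range.1 hj)]
  unfold ph
  rw [Submodule.coe_sub, Pi.sub_apply, Submodule.coe_smul, Submodule.coe_smul, Pi.smul_apply,
    Pi.smul_apply, h1 _ _ hk, h1 _ _ (by omega), smul_eq_mul, smul_eq_mul]

lemma abs_ph_le {m k g : ℕ} (hk : k + 1 ≤ m) (hg : g < 2 ^ (k + 2)) (x : ℕ × ℕ) :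
    |(ph s m k g : Fn) x| ≤ Sys.cc k := by
  have h1 := s.Phi_apply ℝ k g x
  have h2 : (ph s m k g : Fn) x = s.val ℝ (s.Phi ℝ k g) x := by
    rw [h1, ph_apply s hk]
    simp
  rw [h2, ← Real.norm_eq_abs]
  exact ((s.val ℝ (s.Phi ℝ k g)).norm_coe_le_norm x).trans (s.norm_Phi_le ℝ k g hg)

lemma ee_zero {l i : ℕ} {x : ℕ × ℕ} (h1 : x.1 ≠ l) (h2 : x.1 + 1 ≠ l) : ee s.sg s.tt l i x = 0 := by
  unfold ee
  split_ifs <;> rfl

lemma ph_zero {m k g : ℕ} (hk : k + 1 ≤ m) {x : ℕ × ℕ} (hx : x.1 + 2 ≤ k) : (ph s m k g : Fn) x = 0 := by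
  rw [ph_apply s hk]
  rw [Finset.sum_eq_zero (fun j _ => by rw [ee_zero s (by omega) (by omega), mul_zero]),
    Finset.sum_eq_zero (fun j _ => by rw [ee_zero s (by omega) (by omega), mul_zero])]
  simp

/-- the trace-like functionals -/
def bt (m k : ℕ) (Θ : En s m →ₗ[ℝ] Fn) : ℝ :=
  (1 / 2 ^ k) * ∑ j ∈ range (2 ^ k), alf s k j (Θ (eE s m k j))

lemma bt_succ {m k : ℕ} (Θ : En s m →ₗ[ℝ] Fn) (hΘ : ∀ f, Good s (Θ f)) :
    bt s m (k + 1) Θ - bt s m k Θ =
    (1 / 2 ^ (k + 2)) * ∑ g ∈ range (2 ^ (k + 2)), Θ (ph s m k g) (k, g) := by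
  have h1 : ∀ g, Θ (ph s m k g) (k, g) =
      (1 / 2 ^ (k + 1)) * (∑ j ∈ range (2 ^ (k + 1)), (s.tt k j g * (Θ (eE s m (k + 1) j)) (k, g))) -
      (1 / 2 ^ k) * (∑ j ∈ range (2 ^ k), (s.sg k j g * (Θ (eE s m k j)) (k, g))) := by
    intro g
    unfold ph
    rw [map_sub, map_smul, map_smul, map_sum, map_sum, Pi.sub_apply, Pi.smul_apply, Pi.smul_apply,
      Finset.sum_apply, Finset.sum_apply, smul_eq_mul, smul_eq_mul]
    simp only [map_smul, Pi.smul_apply, smul_eq_mul]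
  have h2 : bt s m (k + 1) Θ = (1 / 2 ^ (k + 1)) * ∑ j ∈ range (2 ^ (k + 1)),
      alf' s k j (Θ (eE s m (k + 1) j)) := by
    unfold bt
    congr 1
    exact Finset.sum_congr rfl fun j hj => hΘ _ k j (mem_range.1 hj)
  rw [h2]
  unfold bt alf alf'
  simp only [h1]
  rw [Finset.sum_sub_distrib, mul_sub]
  congr 1
  · rw [← Finset.mul_sum, ← Finset.mul_sum, mul_left_comm]
    congr 2
    rw [Finset.sum_comm]
  · rw [← Finset.mul_sum, ← Finset.mul_sum, mul_left_comm]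
    congr 2
    rw [Finset.sum_comm]

lemma abs_bt_succ {m k : ℕ} (Θ : En s m →ₗ[ℝ] Fn) (hΘ : ∀ f, Good s (Θ f)) {b : ℝ}
    (hb : ∀ g < 2 ^ (k + 2), |Θ (ph s m k g) (k, g)| ≤ b) :
    |bt s m (k + 1) Θ - bt s m k Θ| ≤ b := by
  rw [bt_succ s Θ hΘ, abs_mul, abs_of_nonneg (by positivity)]
  have h2 : |∑ g ∈ range (2 ^ (k + 2)), Θ (ph s m k g) (k, g)| ≤ 2 ^ (k + 2) * b := by
    refine (Finset.abs_sum_le_sum_abs _ _).trans ?_
    refine (Finset.sum_le_sum fun g hg => hb g (mem_range.1 hg)).trans (le_of_eq ?_)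
    rw [Finset.sum_const, card_range, nsmul_eq_mul]
    push_cast
    ring
  calc (1 / 2 ^ (k + 2) : ℝ) * |∑ g ∈ range (2 ^ (k + 2)), Θ (ph s m k g) (k, g)|
      ≤ (1 / 2 ^ (k + 2)) * (2 ^ (k + 2) * b) := by gcongr
    _ = b := by field_simp

lemma abs_bt_le {m : ℕ} (Θ : En s m →ₗ[ℝ] Fn) (hΘ : ∀ f, Good s (Θ f)) {b0 : ℝ} (b : ℕ → ℝ)
    (hb0 : ∀ g < 2 ^ 2, |Θ (eE s m 0 0) (0, g)| ≤ b0)
    (hb : ∀ k < m, ∀ g < 2 ^ (k + 2), |Θ (ph s m k g) (k, g)| ≤ b k) :
    ∀ k ≤ m, |bt s m k Θ| ≤ b0 + ∑ i ∈ range k, b i := by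
  intro k
  induction k with
  | zero =>
    intro _
    rw [Finset.range_zero, Finset.sum_empty, add_zero]
    unfold bt
    rw [pow_zero, pow_zero, Finset.sum_range_one, div_one, one_mul]
    exact abs_alf_le s 0 0 _ (fun g hg => hb0 g (by simpa using hg))
  | succ k ih =>
    intro hk
    have h1 := ih (by omega)
    have h2 := abs_bt_succ s Θ hΘ (hb k (by omega))
    have h3 := abs_add_le (bt s m (k + 1) Θ - bt s m k Θ) (bt s m k Θ)
    rw [sub_add_cancel] at h3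
    rw [Finset.sum_range_succ]
    linarith

lemma bt_id {m k : ℕ} (hk : k ≤ m) : bt s m k (En s m).subtype = 1 := by
  unfold bt
  have h : ∀ j ∈ range (2 ^ k), alf s k j ((En s m).subtype (eE s m k j)) = 1 := by
    intro j hj
    rw [Submodule.subtype_apply, eE_coe s hk (mem_range.1 hj),
      alf_E s _ _ _ _ (mem_range.1 hj) (mem_range.1 hj), if_pos ⟨rfl, rfl⟩]
  rw [Finset.sum_congr rfl h, Finset.sum_const, card_range, nsmul_eq_mul, mul_one, one_div]
  push_cast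
  rw [inv_mul_cancel₀]
  positivity

lemma bt_sub {m k : ℕ} (Θ Θ' : En s m →ₗ[ℝ] Fn) : bt s m k (Θ - Θ') = bt s m k Θ - bt s m k Θ' := by
  unfold bt
  rw [← mul_sub, ← Finset.sum_sub_distrib]
  congr 1
  refine Finset.sum_congr rfl fun j _ => ?_
  have e : (Θ - Θ') (eE s m k j) = Θ (eE s m k j) + (-1 : ℝ) • Θ' (eE s m k j) := by
    rw [neg_one_smul, LinearMap.sub_apply]; exact sub_eq_add_neg _ _
  rw [e, alf_add, alf_smul]
  ring

end Pool.Agent.H812R2.JS
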