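import Pool.Agent.H812R2.JS.Beta
import Pool.Agent.H812R2.JS.AP

set_option autoImplicit false
set_option linter.unusedSectionVars false

/-! # The space fails the bounded approximation property -/

open Filter Topology Finset
open scoped ENNReal

noncomputable section

namespace Pool.Agent.H812R2.JS

open Pool.Agent.BAPp Pool.Agent.H812R2.AP

variable (s : Sys)

/-- coordinates of the embedded vectors -/
def JF (lam m : ℕ) (f : Fn) : ℕ → ℝ := fun i =>
  match cd.symm i with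
  | (lam', none, x) => if lam' = lam then w lam x.1 * f x else 0
  | (lam', some n, x) => if lam' = lam ∧ n < m then - f x else 0

lemma JF_none (lam m : ℕ) (f : Fn) (lam' : ℕ) (x : ℕ × ℕ) : JF lam m f (cd (lam', none, x)) =
    if lam' = lam then w lam x.1 * f x else 0 := by
  unfold JF
  rw [Equiv.symm_apply_apply]

lemma JF_some (lam m : ℕ) (f : Fn) (lam' n : ℕ) (x : ℕ × ℕ) : JF lam m f (cd (lam', some n, x)) =
    if lam' = lam ∧ n < m then - f x else 0 := by
  unfold JF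
  rw [Equiv.symm_apply_apply]

lemma JF_supp {lam m : ℕ} {f : Fn} (hf : f ∈ En s m) (i : ℕ) (hi : i ∉ suppSet (lam + 1) m) :
    JF lam m f i = 0 := by
  obtain ⟨p, rfl⟩ := cd.surjective i
  obtain ⟨lam', o, x⟩ := p
  have hx : x ∉ (range (m + 1)) ×ˢ (range (2 ^ (m + 2))) → f x = 0 := by
    intro hx
    refine En_supp s hf x fun h => hx ?_
    rw [mem_product, mem_range, mem_range]
    exact ⟨by omega, lt_of_lt_of_le h.2 (Nat.pow_le_pow_right (by norm_num) (by omega))⟩
  cases o with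
  | none =>
    rw [JF_none]
    split_ifs with h1
    · rw [hx, mul_zero]
      intro h2
      exact hi (Finset.mem_image_of_mem _ (mem_product.2 ⟨mem_range.2 (by omega),
        mem_product.2 ⟨mem_insert_self _ _, h2⟩⟩))
    · rfl
  | some n =>
    rw [JF_some]
    split_ifs with h1
    · have h3 : x ∉ (range (m + 1)) ×ˢ (range (2 ^ (m + 2))) := fun h2 =>
        hi (Finset.mem_image_of_mem _ (mem_product.2 ⟨mem_range.2 (by omega),
          mem_product.2 ⟨mem_insert_of_mem (mem_image_of_mem _ (mem_range.2 h1.2)), h2⟩⟩))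
      rw [hx h3, neg_zero]
    · rfl

lemma JF_finite {lam m : ℕ} {f : Fn} (hf : f ∈ En s m) : (Function.support (JF lam m f)).Finite := by
  refine (suppSet (lam + 1) m).finite_toSet.subset fun i hi => ?_
  by_contra hcon
  exact hi (JF_supp s hf i hcon)

lemma JF_mem {lam m : ℕ} {f : Fn} (hf : f ∈ En s m) : ofFin (JF lam m f) (JF_finite s hf) ∈ SS s := by
  rw [mem_SS]
  refine ⟨tendsto_ofFin _ _, fun lam' n => ?_⟩
  by_cases hL : lam' = lam
  · subst hL
    by_cases hn : n < m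
    · have h : YU lam' n (ofFin (JF lam' m f) (JF_finite s hf)) = 0 := by
        funext x
        rw [YU_apply, ofFin_apply, ofFin_apply, JF_none, JF_some, if_pos rfl, if_pos ⟨rfl, hn⟩,
          mul_div_cancel_left₀ _ (w_pos _ _).ne', Pi.zero_apply]
        ring
      rw [h]
      exact Submodule.zero_mem _
    · have h : YU lam' n (ofFin (JF lam' m f) (JF_finite s hf)) = f := by
        funext x
        rw [YU_apply, ofFin_apply, ofFin_apply, JF_none, JF_some, if_pos rfl,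
          if_neg (fun h => hn h.2), mul_div_cancel_left₀ _ (w_pos _ _).ne', add_zero]
      rw [h]
      exact En_mono s (not_lt.1 hn) hf
  · have h : YU lam' n (ofFin (JF lam m f) (JF_finite s hf)) = 0 := by
      funext x
      rw [YU_apply, ofFin_apply, ofFin_apply, JF_none, JF_some, if_neg hL,
        if_neg (fun h => hL h.1), zero_div, add_zero]
      rfl
    rw [h]
    exact Submodule.zero_mem _

/-- the embeddings -/
def J (lam m : ℕ) : En s m →ₗ[ℝ] SS s where
  toFun f := ⟨ofFin (JF lam m f) (JF_finite s f.2), JF_mem s f.2⟩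
  map_add' f g := by
    apply Subtype.ext
    apply lp.ext
    funext i
    change JF lam m ((f : Fn) + g) i = JF lam m f i + JF lam m g i
    obtain ⟨p, rfl⟩ := cd.surjective i
    obtain ⟨lam', o, x⟩ := p
    cases o with
    | none =>
      rw [JF_none, JF_none, JF_none, Pi.add_apply]
      split_ifs <;> ring
    | some n =>
      rw [JF_some, JF_some, JF_some, Pi.add_apply]
      split_ifs <;> ring
  map_smul' c f := by
    apply Subtype.ext
    apply lp.ext
    funext i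
    change JF lam m (c • (f : Fn)) i = c * JF lam m f i
    obtain ⟨p, rfl⟩ := cd.surjective i
    obtain ⟨lam', o, x⟩ := p
    cases o with
    | none =>
      rw [JF_none, JF_none, Pi.smul_apply, smul_eq_mul]
      split_ifs <;> ring
    | some n =>
      rw [JF_some, JF_some, Pi.smul_apply, smul_eq_mul]
      split_ifs <;> ring

lemma J_apply (lam m : ℕ) (f : En s m) (i : ℕ) : (J s lam m f : LL) i = JF lam m f i := rfl

lemma Y_J (lam m : ℕ) (f : En s m) : Y lam (J s lam m f) = f := by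
  funext x
  rw [Y_apply, J_apply, JF_none, if_pos rfl, mul_div_cancel_left₀ _ (w_pos _ _).ne']

lemma norm_J_le (lam m : ℕ) (f : En s m) {M : ℝ} (hM : ∀ x, w lam x.1 * |(f : Fn) x| ≤ M) :
    ‖J s lam m f‖ ≤ M := by
  have hM0 : 0 ≤ M := (mul_nonneg (w_pos _ _).le (abs_nonneg _)).trans (hM (0, 0))
  refine norm_le_of hM0 fun i => ?_
  change |JF lam m f i| ≤ M
  obtain ⟨p, rfl⟩ := cd.surjective i
  obtain ⟨lam', o, x⟩ := p
  cases o with
  | none =>
    rw [JF_none]
    split_ifs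
    · rw [abs_mul, abs_of_pos (w_pos _ _)]
      exact hM x
    · rw [abs_zero]; exact hM0
  | some n =>
    rw [JF_some]
    split_ifs
    · rw [abs_neg]
      refine le_trans ?_ (hM x)
      exact le_mul_of_one_le_left (abs_nonneg _) (one_le_w _ _)
    · rw [abs_zero]; exact hM0

lemma norm_J_sub_le (lam m m0 : ℕ) (hm : m0 ≤ m) (f : En s m) (f0 : En s m0) (hf : (f : Fn) = f0)
    {M : ℝ} (hM : ∀ x, |(f : Fn) x| ≤ M) :
    ‖J s lam m f - J s lam m0 f0‖ ≤ M := by
  have hM0 : 0 ≤ M := (abs_nonneg _).trans (hM (0, 0))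
  refine norm_le_of hM0 fun i => ?_
  change |(J s lam m f : LL) i - (J s lam m0 f0 : LL) i| ≤ M
  rw [J_apply, J_apply, ← hf]
  obtain ⟨p, rfl⟩ := cd.surjective i
  obtain ⟨lam', o, x⟩ := p
  cases o with
  | none =>
    rw [JF_none, JF_none, sub_self, abs_zero]
    exact hM0
  | some n =>
    rw [JF_some, JF_some]
    by_cases h1 : lam' = lam ∧ n < m
    · rw [if_pos h1]
      split_ifs
      · rw [sub_self, abs_zero]; exact hM0
      · rw [sub_zero, abs_neg]; exact hM x
    · rw [if_neg h1, if_neg (fun h => h1 ⟨h.1, by omega⟩), sub_zero, abs_zero]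
      exact hM0

/-- the compressed operator -/
def Th (lam m : ℕ) (T : SS s →L[ℝ] SS s) : En s m →ₗ[ℝ] Fn :=
  (Y lam).comp ((SS s).subtype.comp ((T : SS s →ₗ[ℝ] SS s).comp (J s lam m)))

lemma Th_apply (lam m : ℕ) (T : SS s →L[ℝ] SS s) (f : En s m) :
    Th s lam m T f = Y lam (T (J s lam m f) : SS s) := rfl

lemma good_Th (lam m : ℕ) (T : SS s →L[ℝ] SS s) (f : En s m) : Good s (Th s lam m T f) :=
  good_Y s (T (J s lam m f)).2 lam

lemma abs_Y_le (lam : ℕ) (z : SS s) (x : ℕ × ℕ) : |Y lam (z : LL) x| ≤ ‖z‖ / w lam x.1 := by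
  rw [Y_apply, abs_div, abs_of_pos (w_pos _ _)]
  exact div_le_div_of_nonneg_right (abs_ev_le _ _) (w_pos _ _).le

/-- the difference with the identity, near vectors -/
lemma near (lam m m0 : ℕ) (hm : m0 ≤ m) (T : SS s →L[ℝ] SS s) {C ε M : ℝ} (hT : ‖T‖ ≤ C)
    (f : En s m) (f0 : En s m0) (hf : (f : Fn) = f0) (hM : ∀ x, |(f : Fn) x| ≤ M)
    (hε : ‖T (J s lam m0 f0) - J s lam m0 f0‖ ≤ ε) (x : ℕ × ℕ) :
    |(Th s lam m T - (En s m).subtype) f x| ≤ ε + C * M / w lam x.1 := by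
  have hC0 : 0 ≤ C := T.opNorm_nonneg.trans hT
  have e1 : (Th s lam m T - (En s m).subtype) f x =
      Y lam ((T (J s lam m0 f0) - J s lam m0 f0 : SS s) : LL) x +
      Y lam ((T (J s lam m f - J s lam m0 f0) : SS s) : LL) x := by
    rw [LinearMap.sub_apply, Pi.sub_apply, Th_apply, Submodule.subtype_apply, map_sub,
      Submodule.coe_sub, Submodule.coe_sub, map_sub, map_sub, Pi.sub_apply, Pi.sub_apply, Y_J, ← hf]
    ring
  rw [e1]
  refine (abs_add_le _ _).trans (add_le_add ?_ ?_)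
  · refine (abs_Y_le s lam _ x).trans ((div_le_self (norm_nonneg _) (one_le_w _ _)).trans hε)
  · refine (abs_Y_le s lam _ x).trans (div_le_div_of_nonneg_right ?_ (w_pos _ _).le)
    refine (T.le_opNorm _).trans ?_
    exact mul_le_mul hT (norm_J_sub_le s lam m m0 hm f f0 hf hM) (norm_nonneg _) hC0

/-- the difference with the identity, far vectors -/
lemma far' (lam m : ℕ) (T : SS s →L[ℝ] SS s) {C M : ℝ} (hT : ‖T‖ ≤ C)
    (f : En s m) (hM : ∀ x, w lam x.1 * |(f : Fn) x| ≤ M) (x : ℕ × ℕ) :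
    |(Th s lam m T - (En s m).subtype) f x| ≤ (C + 1) * M := by
  have hC0 : 0 ≤ C := T.opNorm_nonneg.trans hT
  have h1 : |Th s lam m T f x| ≤ C * M := by
    rw [Th_apply]
    refine (abs_Y_le s lam _ x).trans ((div_le_self (norm_nonneg _) (one_le_w _ _)).trans ?_)
    exact (T.le_opNorm _).trans (mul_le_mul hT (norm_J_le s lam m f hM) (norm_nonneg _) hC0)
  have h2 : |(f : Fn) x| ≤ M :=
    (le_mul_of_one_le_left (abs_nonneg _) (one_le_w _ _)).trans (hM x)
  rw [LinearMap.sub_apply, Pi.sub_apply, Submodule.subtype_apply]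
  refine (abs_sub _ _).trans ?_
  linarith

/-- finite rank operators are uniformly small far away -/
lemma fin_rank_gen {E : Type} [NormedAddCommGroup E] [NormedSpace ℝ E] (ev : ℕ → E →ₗ[ℝ] ℝ)
    (hev : ∀ z : E, ∀ ε : ℝ, 0 < ε → ∃ M : ℕ, ∀ i, M ≤ i → |ev i z| ≤ ε) (T : E →L[ℝ] E)
    (hT : FiniteDimensional ℝ (LinearMap.range (T : E →ₗ[ℝ] E))) (ε : ℝ) (hε : 0 < ε) :
    ∃ n0 : ℕ, ∀ z : E, ∀ i, n0 ≤ i → |ev i (T z)| ≤ ε * ‖z‖ := by
  set V := LinearMap.range (T : E →ₗ[ℝ] E) with hV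
  let b := Module.finBasis ℝ V
  let f : Fin (Module.finrank ℝ V) → (V →L[ℝ] ℝ) := fun i => LinearMap.toContinuousLinearMap (b.coord i)
  have hv : ∀ v : V, v = ∑ i, f i v • b i := fun v => (b.sum_repr v).symm
  set C : ℝ := ∑ i, ‖f i‖ with hC
  have hC0 : 0 ≤ C := Finset.sum_nonneg fun i _ => (f i).opNorm_nonneg
  have hT0 : 0 ≤ ‖T‖ := T.opNorm_nonneg
  have hK : ∀ i, ∃ K, ∀ k, K ≤ k → |ev k (b i : E)| ≤ ε / ((C + 1) * (‖T‖ + 1)) := fun i =>
    hev _ _ (by positivity)
  choose K hK using hK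
  refine ⟨∑ i, K i, fun z k hk => ?_⟩
  have h0 := hv ⟨T z, ⟨z, rfl⟩⟩
  have h1 : ev k (T z) = ∑ i, f i ⟨T z, ⟨z, rfl⟩⟩ * ev k (b i : E) := by
    have h3 := congrArg (fun v : V => ev k (v : E)) h0
    dsimp only at h3
    rw [h3, Submodule.coe_sum, map_sum]
    refine Finset.sum_congr rfl fun i _ => ?_
    rw [Submodule.coe_smul, map_smul, smul_eq_mul]
  rw [h1]
  refine (Finset.abs_sum_le_sum_abs _ _).trans ?_
  have hz : ‖(⟨T z, ⟨z, rfl⟩⟩ : V)‖ ≤ ‖T‖ * ‖z‖ := T.le_opNorm z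
  have h2 : ∑ i, |f i ⟨T z, ⟨z, rfl⟩⟩ * ev k (b i : E)| ≤
      ∑ i, ‖f i‖ * (ε / ((C + 1) * (‖T‖ + 1)) * (‖T‖ * ‖z‖)) := by
    refine Finset.sum_le_sum fun i _ => ?_
    rw [abs_mul]
    have h3 : K i ≤ k := (Finset.single_le_sum (f := K) (fun _ _ => Nat.zero_le _) (Finset.mem_univ i)).trans hk
    have hfi : 0 ≤ ‖f i‖ := (f i).opNorm_nonneg
    have h5 : |f i ⟨T z, ⟨z, rfl⟩⟩| ≤ ‖f i‖ * (‖T‖ * ‖z‖) := by
      rw [← Real.norm_eq_abs]
      exact ((f i).le_opNorm _).trans (mul_le_mul_of_nonneg_left hz hfi)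
    calc |f i ⟨T z, ⟨z, rfl⟩⟩| * |ev k (b i : E)|
        ≤ (‖f i‖ * (‖T‖ * ‖z‖)) * (ε / ((C + 1) * (‖T‖ + 1))) :=
          mul_le_mul h5 (hK i k h3) (abs_nonneg _) (by positivity)
      _ = _ := by ring
  refine h2.trans ?_
  rw [← Finset.sum_mul, ← hC]
  have h4 : C * (ε / ((C + 1) * (‖T‖ + 1)) * (‖T‖ * ‖z‖)) =
      (C / (C + 1)) * (‖T‖ / (‖T‖ + 1)) * (ε * ‖z‖) := by
    field_simp
  rw [h4]
  have h5 : C / (C + 1) ≤ 1 := by rw [div_le_one (by positivity)]; linarith
  have h6 : ‖T‖ / (‖T‖ + 1) ≤ 1 := by rw [div_le_one (by positivity)]; linarith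
  have h7 : (C / (C + 1)) * (‖T‖ / (‖T‖ + 1)) ≤ 1 :=
    mul_le_one₀ h5 (by positivity) h6
  calc (C / (C + 1)) * (‖T‖ / (‖T‖ + 1)) * (ε * ‖z‖) ≤ 1 * (ε * ‖z‖) :=
        mul_le_mul_of_nonneg_right h7 (by positivity)
    _ = ε * ‖z‖ := one_mul _

lemma fin_rank (T : SS s →L[ℝ] SS s)
    (hT : FiniteDimensional ℝ (LinearMap.range (T : SS s →ₗ[ℝ] SS s))) (ε : ℝ) (hε : 0 < ε) :
    ∃ n0 : ℕ, ∀ z : SS s, ∀ i, n0 ≤ i → |(T z : LL) i| ≤ ε * ‖z‖ :=
  fin_rank_gen (fun i => (ev i).comp (SS s).subtype) (fun z ε hε => small_far s z ε hε) T hT ε hε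

lemma abs_ee_le (l i : ℕ) (x : ℕ × ℕ) : |ee s.sg s.tt l i x| ≤ 1 := s.ee_le l i x

/-- the functionals vanish asymptotically on finite rank operators -/
lemma bt_small (lam : ℕ) (T : SS s →L[ℝ] SS s)
    (hT : FiniteDimensional ℝ (LinearMap.range (T : SS s →ₗ[ℝ] SS s))) (ε : ℝ) (hε : 0 < ε) :
    ∃ K0 : ℕ, ∀ m, K0 ≤ m → |bt s m m (Th s lam m T)| ≤ ε := by
  obtain ⟨n0, hn0⟩ := fin_rank s T hT (ε / (lam + 1)) (by positivity)
  refine ⟨(range n0).sup (fun i => (cd.symm i).2.2.1 + 1), fun m hm => ?_⟩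
  have hbig : ∀ g, n0 ≤ cd (lam, none, (m, g)) := by
    intro g
    by_contra hcon
    have h2 : (cd.symm (cd (lam, none, (m, g)))).2.2.1 + 1 ≤
        (range n0).sup (fun i => (cd.symm i).2.2.1 + 1) :=
      Finset.le_sup (f := fun i => (cd.symm i).2.2.1 + 1) (mem_range.2 (not_le.1 hcon))
    rw [Equiv.symm_apply_apply] at h2
    dsimp only at h2
    omega
  have h1 : ∀ j ∈ range (2 ^ m), |alf s m j (Th s lam m T (eE s m m j))| ≤ ε := by
    intro j hj
    refine abs_alf_le s m j _ fun g _ => ?_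
    rw [Th_apply, Y_apply, abs_div, abs_of_pos (w_pos _ _)]
    refine (div_le_self (abs_nonneg _) (one_le_w _ _)).trans ?_
    refine (hn0 _ _ (hbig g)).trans ?_
    have h2 : ‖J s lam m (eE s m m j)‖ ≤ lam + 1 := by
      refine norm_J_le s lam m _ fun x => ?_
      rw [eE_coe s le_rfl (mem_range.1 hj)]
      calc w lam x.1 * |ee s.sg s.tt m j x| ≤ (lam + 1) * 1 :=
            mul_le_mul (w_le _ _) (abs_ee_le s _ _ _) (abs_nonneg _) (by positivity)
        _ = lam + 1 := mul_one _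
    calc ε / (lam + 1) * ‖J s lam m (eE s m m j)‖ ≤ ε / (lam + 1) * (lam + 1) :=
          mul_le_mul_of_nonneg_left h2 (by positivity)
      _ = ε := by field_simp
  unfold bt
  rw [abs_mul, abs_of_nonneg (by positivity)]
  have h3 : |∑ j ∈ range (2 ^ m), alf s m j (Th s lam m T (eE s m m j))| ≤ 2 ^ m * ε := by
    refine (Finset.abs_sum_le_sum_abs _ _).trans ((Finset.sum_le_sum h1).trans (le_of_eq ?_))
    rw [Finset.sum_const, card_range, nsmul_eq_mul]
    push_cast
    ring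
  calc (1 / 2 ^ m : ℝ) * |∑ j ∈ range (2 ^ m), alf s m j (Th s lam m T (eE s m m j))|
      ≤ (1 / 2 ^ m) * (2 ^ m * ε) := by gcongr
    _ = ε := by field_simp

lemma cc_nonneg (k : ℕ) : 0 ≤ Sys.cc k := by unfold Sys.cc; positivity

lemma summable_cc : Summable Sys.cc := by
  have h := Sys.tendsto_cc
  obtain ⟨N, hN⟩ := Metric.tendsto_atTop.1 h 1 one_pos
  have h1 : ∀ k ≥ N, Sys.cc k ≤ (3 / 4 : ℝ) ^ k := by
    intro k hk
    have h2 := hN k hk
    rw [Real.dist_eq, sub_zero, abs_of_nonneg (mul_nonneg (by positivity) (cc_nonneg k))] at h2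
    have h3 : (3 / 4 : ℝ) ^ k * ((4 / 3 : ℝ) ^ k * Sys.cc k) ≤ (3 / 4 : ℝ) ^ k * 1 :=
      mul_le_mul_of_nonneg_left h2.le (by positivity)
    rw [← mul_assoc, ← mul_pow] at h3
    norm_num at h3
    exact h3
  refine (summable_nat_add_iff N).1 ?_
  refine Summable.of_nonneg_of_le (fun k => cc_nonneg _) (fun k => h1 (k + N) (by omega)) ?_
  exact (summable_nat_add_iff N).2 (summable_geometric_of_lt_one (by norm_num) (by norm_num))

/-- the space fails the bounded approximation property -/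
theorem noBAP (C : ℝ) : ¬ ∀ K : Set (SS s), IsCompact K → ∀ ε : ℝ, 0 < ε →
        ∃ T : SS s →L[ℝ] SS s, FiniteDimensional ℝ (LinearMap.range (T : SS s →ₗ[ℝ] SS s)) ∧
          ‖T‖ ≤ C ∧ ∀ x ∈ K, ‖T x - x‖ ≤ ε := by
  intro H
  have hC0 : 0 ≤ C := by
    obtain ⟨T, _, hT, _⟩ := H ∅ isCompact_empty 1 one_pos
    exact T.opNorm_nonneg.trans hT
  set Sg : ℝ := ∑' k, Sys.cc k with hSg
  have hsum := summable_cc
  have hSg0 : 0 ≤ Sg := tsum_nonneg cc_nonneg
  -- choice of the block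
  have hA : ∀ᶠ lam : ℕ in atTop, C * (1 + Sg) / ((lam : ℝ) + 1) ≤ 1 / 8 := by
    have h1 : Tendsto (fun lam : ℕ => C * (1 + Sg) / ((lam : ℝ) + 1)) atTop (𝓝 0) :=
      tendsto_const_div_atTop_nhds_zero_nat (C * (1 + Sg)) |>.comp (tendsto_add_atTop_nat 1) |>.congr
        (fun n => by simp)
    exact (h1.eventually (ge_mem_nhds (by norm_num : (0 : ℝ) < 1 / 8)))
  have hB : ∀ᶠ lam : ℕ in atTop, (C + 1) * (∑' k, Sys.cc (k + (lam + 1))) ≤ 1 / 8 := by
    have h1 : Tendsto (fun lam : ℕ => (C + 1) * (∑' k, Sys.cc (k + (lam + 1)))) atTop (𝓝 ((C + 1) * 0)) :=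
      ((tendsto_sum_nat_add Sys.cc).comp (tendsto_add_atTop_nat 1)).const_mul _
    rw [mul_zero] at h1
    exact (h1.eventually (ge_mem_nhds (by norm_num : (0 : ℝ) < 1 / 8)))
  obtain ⟨lam, hlamA, hlamB⟩ := (hA.and hB).exists
  set ε : ℝ := 1 / (8 * ((lam : ℝ) + 3)) with hε
  have hε0 : 0 < ε := by positivity
  -- the compact set
  set K : Set (SS s) := insert (J s lam (lam + 2) (eE s (lam + 2) 0 0))
    ((fun p : ℕ × ℕ => J s lam (lam + 2) (ph s (lam + 2) p.1 p.2)) ''
      ((Set.Iio (lam + 2)) ×ˢ (Set.Iio (2 ^ (lam + 3))))) with hK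
  have hKf : K.Finite := (((Set.finite_Iio _).prod (Set.finite_Iio _)).image _).insert _
  obtain ⟨T, hTf, hTC, hTK⟩ := H K hKf.isCompact ε hε0
  obtain ⟨K0, hK0⟩ := bt_small s lam T hTf (1 / 4) (by norm_num)
  set m := max K0 (lam + 2) with hm
  have hm1 : lam + 2 ≤ m := le_max_right _ _
  have hsmall := hK0 m (le_max_left _ _)
  set Θ := Th s lam m T - (En s m).subtype with hΘ
  have hgood : ∀ f, Good s (Θ f) := fun f => good_sub s (good_Th s lam m T f) (good_En s f.2)
  -- bounds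
  set b : ℕ → ℝ := fun k => if k ≤ lam then ε + C * Sys.cc k / (lam + 1) else
    (if k = lam + 1 then ε else 0) + (C + 1) * Sys.cc k with hb
  have hb0 : ∀ g < 2 ^ 2, |Θ (eE s m 0 0) (0, g)| ≤ ε + C * 1 / (lam + 1) := by
    intro g _
    have h1 := near s lam m (lam + 2) hm1 T (M := 1) hTC (eE s m 0 0) (eE s (lam + 2) 0 0)
      (by rw [eE_coe s (by omega) (by norm_num), eE_coe s (by omega) (by norm_num)])
      (fun x => by rw [eE_coe s (by omega) (by norm_num)]; exact abs_ee_le s _ _ _)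
      (hTK _ (Set.mem_insert _ _)) (0, g)
    have h2 : w lam 0 = (lam : ℝ) + 1 := by unfold w; rw [if_pos (Nat.zero_le _)]
    rw [h2] at h1
    exact h1
  have hbk : ∀ k < m, ∀ g < 2 ^ (k + 2), |Θ (ph s m k g) (k, g)| ≤ b k := by
    intro k hk g hg
    by_cases h1 : k ≤ lam + 1
    · have h2 := near s lam m (lam + 2) hm1 T (M := Sys.cc k) hTC (ph s m k g) (ph s (lam + 2) k g)
        (by funext x; rw [ph_apply s (by omega), ph_apply s (by omega)])
        (fun x => abs_ph_le s (by omega) hg x)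
        (hTK _ (Set.mem_insert_of_mem _ ⟨(k, g), ⟨by simp only [Set.mem_Iio]; omega, by
          simp only [Set.mem_Iio]
          exact lt_of_lt_of_le hg (Nat.pow_le_pow_right (by norm_num) (by omega))⟩, rfl⟩)) (k, g)
      refine h2.trans ?_
      rw [hb]
      dsimp only
      by_cases h3 : k ≤ lam
      · rw [if_pos h3]
        have h4 : w lam k = (lam : ℝ) + 1 := by unfold w; rw [if_pos h3]
        rw [h4]
      · rw [if_neg h3, if_pos (by omega)]
        have h4 : w lam k = 1 := by unfold w; rw [if_neg h3]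
        rw [h4, div_one]
        have := cc_nonneg k
        linarith
    · have h2 := far' s lam m T (M := Sys.cc k) hTC (ph s m k g) (fun x => by
        by_cases hx : x.1 ≤ lam
        · rw [ph_zero s (by omega) (by omega), abs_zero, mul_zero]
          exact cc_nonneg k
        · have h4 : w lam x.1 = 1 := by unfold w; rw [if_neg hx]
          rw [h4, one_mul]
          exact abs_ph_le s (by omega) hg x) (k, g)
      refine h2.trans ?_
      rw [hb]
      dsimp only
      rw [if_neg (by omega), if_neg (by omega), zero_add]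
  have hfin := abs_bt_le s Θ hgood b hb0 hbk m le_rfl
  have hbt : bt s m m Θ = bt s m m (Th s lam m T) - 1 := by
    rw [hΘ, bt_sub, bt_id s le_rfl]
  -- sum of the bounds
  have hsumb : ∑ k ∈ range m, b k ≤ (lam + 2) * ε + C * Sg / (lam + 1) +
      (C + 1) * (∑' k, Sys.cc (k + (lam + 1))) := by
    obtain ⟨r, hr⟩ := Nat.exists_eq_add_of_le (show lam + 1 ≤ m by omega)
    rw [hr, Finset.sum_range_add]
    have e1 : ∑ k ∈ range (lam + 1), b k ≤ (lam + 1) * ε + C * Sg / (lam + 1) := by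
      have e2 : ∑ k ∈ range (lam + 1), b k = ∑ k ∈ range (lam + 1), (ε + C * Sys.cc k / (lam + 1)) := by
        refine Finset.sum_congr rfl fun k hk => ?_
        rw [hb]
        dsimp only
        rw [if_pos (by have := mem_range.1 hk; omega)]
      rw [e2, Finset.sum_add_distrib, Finset.sum_const, card_range, nsmul_eq_mul, ← Finset.sum_div,
        ← Finset.mul_sum]
      push_cast
      gcongr
      exact hsum.sum_le_tsum _ (fun k _ => cc_nonneg k)
    have e3 : ∑ k ∈ range r, b (lam + 1 + k) ≤ ε + (C + 1) * (∑' k, Sys.cc (k + (lam + 1))) := by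
      have e4 : ∑ k ∈ range r, b (lam + 1 + k) =
          ∑ k ∈ range r, ((if k = 0 then ε else 0) + (C + 1) * Sys.cc (k + (lam + 1))) := by
        refine Finset.sum_congr rfl fun k hk => ?_
        rw [hb]
        dsimp only
        rw [if_neg (by omega), add_comm (lam + 1) k]
        by_cases h0 : k = 0
        · rw [if_pos h0, if_pos (by omega)]
        · rw [if_neg h0, if_neg (by omega)]
      rw [e4, Finset.sum_add_distrib, ← Finset.mul_sum]
      have e5 : ∑ k ∈ range r, (if k = 0 then ε else 0) ≤ ε := by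
        rw [Finset.sum_ite_eq' (range r) 0 (fun _ => ε)]
        split_ifs
        · exact le_rfl
        · exact hε0.le
      have e6 : ∑ k ∈ range r, Sys.cc (k + (lam + 1)) ≤ ∑' k, Sys.cc (k + (lam + 1)) :=
        ((summable_nat_add_iff (lam + 1)).2 hsum).sum_le_tsum _ (fun k _ => cc_nonneg _)
      have e7 := mul_le_mul_of_nonneg_left e6 (show 0 ≤ C + 1 by linarith)
      linarith
    have e8 : ((lam : ℝ) + 1) * ε + ε = (lam + 2) * ε := by ring
    linarith
  have hε8 : ((lam : ℝ) + 3) * ε = 1 / 8 := by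
    rw [hε]; field_simp
  have hC1 : C * 1 / ((lam : ℝ) + 1) + C * Sg / (lam + 1) = C * (1 + Sg) / (lam + 1) := by ring
  have htot : |bt s m m Θ| ≤ 3 / 8 := by
    have : ((lam : ℝ) + 2) * ε + ε = (lam + 3) * ε := by ring
    linarith
  rw [hbt] at htot
  have h9 := abs_le.1 htot
  have h10 := abs_le.1 hsmall
  linarith [h9.1, h9.2, h10.1, h10.2]

end Pool.Agent.H812R2.JS
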